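import Mathlib

set_option autoImplicit false

/-!
For `n > 1` which is not a prime power and every nonempty set `X` of generators, the free Burnside
group `B(X, n)` has a retract (a cyclic one, of order a proper divisor of `n`) which is not
isomorphic to any free Burnside group `B(K, n)`.
-/

namespace Pool.Agent.Results.MP_836feb_al.NonFreeRetracts

universe u v

/-- the normal subgroup of the free group on `X` generated by all `n`-th powers -/
def powerSubgroup (X : Type u) (n : ℕ) : Subgroup (FreeGroup X) :=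
  Subgroup.normalClosure {w : FreeGroup X | ∃ v : FreeGroup X, w = v ^ n}

instance (X : Type u) (n : ℕ) : (powerSubgroup X n).Normal :=
  Subgroup.normalClosure_normal

/-- the free Burnside group `B(X, n)` -/
abbrev Burnside (X : Type u) (n : ℕ) : Type u := FreeGroup X ⧸ powerSubgroup X n

/-- `H` is a retract of `G` -/
def IsRetract {G : Type u} [Group G] (H : Subgroup G) : Prop :=
  ∃ ρ : G →* H, ∀ h : H, ρ (h : G) = h

theorem burnside_pow {X : Type u} {n : ℕ} (g : Burnside X n) : g ^ n = 1 := by
  obtain ⟨w, rfl⟩ := QuotientGroup.mk'_surjective (powerSubgroup X n) g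
  rw [← map_pow]
  have : w ^ n ∈ powerSubgroup X n := Subgroup.subset_normalClosure ⟨w, rfl⟩
  exact (QuotientGroup.eq_one_iff _).mpr this

/-- the map `B(X, n) → C_n` which is `1` at `x` and trivial on the other generators -/
noncomputable def toCyc (X : Type u) (n : ℕ) (x : X) : Burnside X n →* Multiplicative (ZMod n) := by
  classical
  exact QuotientGroup.lift (powerSubgroup X n)
    (FreeGroup.lift (fun y => if y = x then Multiplicative.ofAdd (1 : ZMod n) else 1))
    (by
      intro w hw
      have h : powerSubgroup X n ≤ (FreeGroup.lift (fun y => if y = x then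
          Multiplicative.ofAdd (1 : ZMod n) else 1)).ker := by
        apply Subgroup.normalClosure_le_normal
        rintro _ ⟨v, rfl⟩
        rw [SetLike.mem_coe, MonoidHom.mem_ker, map_pow]
        apply Multiplicative.toAdd.injective
        rw [toAdd_pow, toAdd_one, nsmul_eq_mul, ZMod.natCast_self, zero_mul]
      exact h hw)

/-- the class of a generator -/
def gen {X : Type u} (n : ℕ) (x : X) : Burnside X n :=
  QuotientGroup.mk' (powerSubgroup X n) (FreeGroup.of x)

theorem toCyc_gen {X : Type u} (n : ℕ) (x : X) :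
    toCyc X n x (gen n x) = Multiplicative.ofAdd (1 : ZMod n) := by
  unfold toCyc gen
  simp

theorem toCyc_gen_pow {X : Type u} (n : ℕ) (x : X) (k : ℕ) :
    toCyc X n x (gen n x ^ k) = Multiplicative.ofAdd (k : ZMod n) := by
  rw [map_pow, toCyc_gen, ← ofAdd_nsmul, nsmul_eq_mul, mul_one]

/-- the map `C_n → B(X, n)`, `1 ↦ g` -/
noncomputable def fromCyc {X : Type u} (n : ℕ) (g : Burnside X n) :
    Multiplicative (ZMod n) →* Burnside X n :=
  AddMonoidHom.toMultiplicativeLeft
    (ZMod.lift n ⟨(zmultiplesHom (Additive (Burnside X n))) (Additive.ofMul g), by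
      rw [zmultiplesHom_apply, natCast_zsmul, ← ofMul_pow, burnside_pow, ofMul_one]⟩)

theorem fromCyc_ofAdd {X : Type u} (n : ℕ) (g : Burnside X n) (k : ℕ) :
    fromCyc n g (Multiplicative.ofAdd (k : ZMod n)) = g ^ k := by
  unfold fromCyc
  have h : (k : ZMod n) = ((k : ℤ) : ZMod n) := by simp
  rw [AddMonoidHom.toMultiplicativeLeft_apply_apply, toAdd_ofAdd, h, ZMod.lift_coe]
  simp [← ofMul_pow]

/-- the retract: the subgroup generated by the `b`-th power of a generator -/
def ret {X : Type u} (n b : ℕ) (x : X) : Subgroup (Burnside X n) :=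
  Subgroup.zpowers (gen n x ^ b)

theorem ret_isRetract {X : Type u} {n a b : ℕ} (hab : Nat.Coprime a b) (hn : n = a * b) (x : X) :
    IsRetract (ret n b x) := by
  obtain ⟨e, he1, he2⟩ := Nat.chineseRemainder hab 1 0
  have hbe : b ∣ e := (Nat.modEq_zero_iff_dvd).mp he2
  obtain ⟨c, rfl⟩ := hbe
  -- the homomorphism `w ↦ g ^ (e * π w)`
  let φ : Burnside X n →* Burnside X n :=
    (fromCyc n (gen n x ^ (b * c))).comp (toCyc X n x)
  have hφ : ∀ w, φ w ∈ ret n b x := by
    intro w
    obtain ⟨k, hk⟩ : ∃ k : ℤ, toCyc X n x w = Multiplicative.ofAdd (k : ZMod n) :=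
      ⟨_, (congrArg Multiplicative.ofAdd (ZMod.intCast_zmod_cast _)).symm⟩
    have h1 : φ w = ((gen n x ^ b) ^ c) ^ k := by
      change fromCyc n (gen n x ^ (b * c)) (toCyc X n x w) = _
      rw [hk, ← pow_mul]
      have h2 : (Multiplicative.ofAdd (k : ZMod n)) =
          (Multiplicative.ofAdd ((1 : ℕ) : ZMod n)) ^ k := by
        rw [← ofAdd_zsmul]; simp
      rw [h2, map_zpow, fromCyc_ofAdd, pow_one]
    rw [h1]
    exact Subgroup.zpow_mem _ (Subgroup.pow_mem _ (Subgroup.mem_zpowers _) _) _
  refine ⟨φ.codRestrict _ hφ, ?_⟩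
  rintro ⟨h, hh⟩
  apply Subtype.ext
  change φ h = h
  obtain ⟨k, rfl⟩ := Subgroup.mem_zpowers_iff.mp hh
  rw [map_zpow]
  congr 1
  change fromCyc n (gen n x ^ (b * c)) (toCyc X n x (gen n x ^ b)) = _
  rw [toCyc_gen_pow, fromCyc_ofAdd, ← pow_mul]
  -- `b * c * b ≡ b` modulo `n`
  have h3 : b * c * b ≡ b [MOD n] := by
    have h4 : (b * c) * b ≡ 1 * b [MOD (a * b)] := Nat.ModEq.mul_right' b he1
    rw [one_mul] at h4
    rw [hn]
    exact h4
  have h5 : orderOf (gen n x) ∣ n := orderOf_dvd_of_pow_eq_one (burnside_pow _)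
  exact pow_eq_pow_iff_modEq.mpr (h3.of_dvd h5)

theorem ret_pow {X : Type u} {n a b : ℕ} (hn : n = a * b) (x : X) (h : ret n b x) :
    h ^ a = 1 := by
  obtain ⟨h, hh⟩ := h
  apply Subtype.ext
  change h ^ a = 1
  obtain ⟨k, rfl⟩ := Subgroup.mem_zpowers_iff.mp hh
  rw [← zpow_natCast, ← zpow_mul, mul_comm, zpow_mul, zpow_natCast, ← pow_mul, mul_comm b a, ← hn,
    burnside_pow, one_zpow]

theorem ret_not_free {X : Type u} {n a b : ℕ} (ha : 1 < a) (hb : 1 < b) (hn : n = a * b)
    (x : X) (K : Type v) : IsEmpty (ret n b x ≃* Burnside K n) := by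
  constructor
  intro f
  have hn0 : 0 < n := by rw [hn]; positivity
  have key : ∀ (Y : Type u) (y : Y) (k : ℕ), gen n y ^ k = 1 → n ∣ k := by
    intro Y y k hk
    have h := toCyc_gen_pow n y k
    rw [hk, map_one] at h
    have h2 : (k : ZMod n) = 0 := by
      have := congrArg Multiplicative.toAdd h
      simpa using this.symm
    exact (ZMod.natCast_eq_zero_iff k n).mp h2
  have key' : ∀ (Y : Type v) (y : Y) (k : ℕ), gen n y ^ k = 1 → n ∣ k := by
    intro Y y k hk
    have h := toCyc_gen_pow n y k
    rw [hk, map_one] at h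
    have h2 : (k : ZMod n) = 0 := by
      have := congrArg Multiplicative.toAdd h
      simpa using this.symm
    exact (ZMod.natCast_eq_zero_iff k n).mp h2
  rcases isEmpty_or_nonempty K with hK | ⟨⟨y⟩⟩
  · -- the free Burnside group of rank zero is trivial
    have htriv : ∀ w : Burnside K n, w = 1 := by
      intro w
      obtain ⟨w, rfl⟩ := QuotientGroup.mk'_surjective (powerSubgroup K n) w
      have : w = 1 := Subsingleton.elim _ _
      rw [this, map_one]
    have h1 : (⟨gen n x ^ b, Subgroup.mem_zpowers _⟩ : ret n b x) = 1 := by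
      apply f.injective
      rw [htriv (f _), map_one]
    have h2 : gen n x ^ b = 1 := congrArg Subtype.val h1
    have h3 := Nat.le_of_dvd (by omega) (key X x b h2)
    rw [hn] at h3
    nlinarith
  · -- the exponent of the free Burnside group is `n`
    have h1 : gen n y ^ a = 1 := by
      obtain ⟨h, hh⟩ := f.surjective (gen n y)
      rw [← hh, ← map_pow, ret_pow hn x h, map_one]
    have h3 := Nat.le_of_dvd (by omega) (key' K y a h1)
    rw [hn] at h3
    nlinarith

/-- a number that is not a prime power is a product of two coprime factors greater than one -/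
theorem exists_factors {n : ℕ} (h1 : 1 < n) (hn : ¬ IsPrimePow n) :
    ∃ a b, Nat.Coprime a b ∧ 1 < a ∧ 1 < b ∧ n = a * b := by
  have hp := Nat.minFac_prime h1.ne'
  set p := n.minFac with hpdef
  have hdvd : p ∣ n := Nat.minFac_dvd n
  have hn0 : n ≠ 0 := by omega
  refine ⟨p ^ n.factorization p, n / p ^ n.factorization p, ?_, ?_, ?_, ?_⟩
  · exact Nat.Coprime.pow_left _ (Nat.coprime_ordCompl hp hn0)
  · exact Nat.one_lt_pow (hp.factorization_pos_of_dvd hn0 hdvd).ne' hp.one_lt
  · have h0 : 0 < n / p ^ n.factorization p := Nat.ordCompl_pos p hn0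
    have hne : n / p ^ n.factorization p ≠ 1 := by
      intro h
      apply hn
      have h2 := Nat.ordProj_mul_ordCompl_eq_self n p
      rw [h, mul_one] at h2
      rw [isPrimePow_nat_iff]
      exact ⟨p, n.factorization p, hp, hp.factorization_pos_of_dvd hn0 hdvd, h2⟩
    omega
  · exact (Nat.ordProj_mul_ordCompl_eq_self n p).symm

/-- **Retracts of free Burnside groups need not be free.**  There are infinitely many odd `n`
which are not prime powers, and for every `n > 1` which is not a prime power and every nonempty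
generating set `X`, the group `B(X, n)` has a retract that is not isomorphic to any free Burnside
group `B(K, n)`. -/
theorem result :
    (∀ N : ℕ, ∃ n ≥ N, Odd n ∧ 1 < n ∧ ¬ IsPrimePow n) ∧
    ∀ n : ℕ, 1 < n → ¬ IsPrimePow n → ∀ (X : Type u) [Nonempty X],
      ∃ H : Subgroup (Burnside X n), IsRetract H ∧
        ∀ K : Type v, IsEmpty (H ≃* Burnside K n) := by
  constructor
  · intro N
    refine ⟨5 * 3 ^ (N + 1), ?_, ?_, ?_, ?_⟩
    · have h1 : N + 1 < 3 ^ (N + 1) := Nat.lt_pow_self (by norm_num)
      omega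
    · exact Odd.mul (by decide) (Odd.pow (by decide))
    · have h1 : 0 < 3 ^ (N + 1) := by positivity
      omega
    · intro h
      rw [isPrimePow_nat_iff] at h
      obtain ⟨p, k, hp, hk, hpk⟩ := h
      have h5 : 5 ∣ p ^ k := by rw [hpk]; exact Dvd.intro _ rfl
      have h3 : 3 ∣ p ^ k := by
        rw [hpk]; exact Dvd.dvd.mul_left (dvd_pow_self 3 (by omega)) 5
      have e5 : 5 = p := (Nat.prime_dvd_prime_iff_eq (by norm_num) hp).mp
        (Nat.Prime.dvd_of_dvd_pow (by norm_num) h5)
      have e3 : 3 = p := (Nat.prime_dvd_prime_iff_eq (by norm_num) hp).mp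
        (Nat.Prime.dvd_of_dvd_pow (by norm_num) h3)
      omega
  · intro n h1 hn X hX
    obtain ⟨x⟩ := hX
    obtain ⟨a, b, hab, ha, hb, hn⟩ := exists_factors h1 hn
    exact ⟨ret n b x, ret_isRetract hab hn x, fun K => ret_not_free ha hb hn x K⟩

end Pool.Agent.Results.MP_836feb_al.NonFreeRetracts
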